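import Pool.Agent.H9.WS1

namespace Pool.Agent.Results.MP_e74ad6_co.Bound

open Finset Pool.Agent.H9.WS1

/-- Division points of the triangle with vertices `(0,0)`, `(d,0)`, `(0,d)`: the lattice points
on its boundary. -/
def IsDiv (d : ℕ) (u : ℕ × ℕ) : Prop := u.1 + u.2 ≤ d ∧ (u.1 = 0 ∨ u.2 = 0 ∨ u.1 + u.2 = d)

/-- Two points lie on a common side of the triangle. -/
def SameSide (d : ℕ) (u v : ℕ × ℕ) : Prop :=
  (u.1 = 0 ∧ v.1 = 0) ∨ (u.2 = 0 ∧ v.2 = 0) ∨ (u.1 + u.2 = d ∧ v.1 + v.2 = d)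

/-- The lines of the Wang-Shi split. -/
def lines (d : ℕ) : Set (AffineSubspace ℝ (ℝ × ℝ)) :=
  {l | ∃ u v, IsDiv d u ∧ IsDiv d v ∧ ¬ SameSide d u v ∧
    l = line[ℝ, ((u.1 : ℝ), (u.2 : ℝ)), ((v.1 : ℝ), (v.2 : ℝ))]}

open Classical in
noncomputable def sec (d : ℕ) (x y : ℝ) : Finset (ℕ × ℕ) :=
  (range d ×ˢ range (d - 1)).filter fun s =>
    x * (s.2 + 1) + y * (s.1 + 1) = (s.1 + 1) * (s.2 + 1)

lemma pos_of_mul_pos_of_pos {a b : ℝ} (h : 0 < a * b) (hb : 0 ≤ b) : 0 < a := by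
  by_contra h'
  nlinarith

noncomputable def DD (u v : ℝ) : ℤ :=
  (if v < 2 * u then 1 else 0) + (if v < u then 2 else 0) + (if 2 * v < u then 1 else 0)

lemma DD_bd (u v : ℝ) : 0 ≤ DD u v ∧ DD u v ≤ 4 := by
  unfold DD
  split_ifs <;> omega

lemma ind (a b : Prop) [Decidable a] [Decidable b] (c : ℤ) (hc : 0 ≤ c) (h : a → b) :
    (if a then c else 0) ≤ if b then c else 0 := by
  split_ifs <;> first | omega | tauto

lemma DD_step (u v : ℝ) (i j : ℕ) (k : u * (j + 1) = v * (i + 1)) :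
    DD u (v + (j + 1)) + 2 ≤ DD (u + (i + 1)) v + i + j := by
  have i0 : (0 : ℝ) ≤ i := by positivity
  have j0 : (0 : ℝ) ≤ j := by positivity
  have h1 := ind (v + (j + 1) < 2 * u) (v < 2 * (u + (i + 1))) 1 (by norm_num) fun h => by linarith
  have h2 := ind (v + (j + 1) < u) (v < u + (i + 1)) 2 (by norm_num) fun h => by linarith
  have h3 := ind (2 * (v + (j + 1)) < u) (2 * v < u + (i + 1)) 1 (by norm_num) fun h => by linarith
  unfold DD
  by_cases h : 2 ≤ i + j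
  · omega
  obtain ⟨rfl, rfl⟩ | ⟨rfl, rfl⟩ | ⟨rfl, rfl⟩ : (i = 0 ∧ j = 0) ∨ (i = 0 ∧ j = 1) ∨ (i = 1 ∧ j = 0) := by
    omega
  · push_cast at *
    rw [if_neg (show ¬ v + (0 + 1) < u by linarith), if_pos (show v < u + (0 + 1) by linarith)]
    omega
  · push_cast at *
    rw [if_neg (show ¬ v + (1 + 1) < 2 * u by linarith),
      if_pos (show v < 2 * (u + (0 + 1)) by linarith)]
    omega
  · push_cast at *
    rw [if_neg (show ¬ 2 * (v + (0 + 1)) < u by linarith),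
      if_pos (show 2 * v < u + (1 + 1) by linarith)]
    omega

lemma sec_bound (d : ℕ) (x y z : ℝ) (hx : 0 < x) (hy : 0 < y) (hz : 0 < z) (hd : x + y + z = d) :
    4 * ((sec d x y).card : ℤ) ≤ 2 * d + 6 - ⌊x * d / (x + z)⌋ - ⌈y * d / (y + z)⌉ := by
  classical
  let Ψ : ℕ × ℕ → ℤ := fun s => s.1 - s.2 + DD (s.1 + 1 - x) (s.2 + 1 - y)
  have hpos : ∀ s ∈ sec d x y, 0 < s.1 + 1 - x ∧ 0 < s.2 + 1 - y ∧
      (s.1 + 1 - x) * (s.2 + 1 - y) = x * y := by
    intro s hs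
    have h := (mem_filter.1 hs).2
    have a1 : (0 : ℝ) < s.1 + 1 := by positivity
    have a2 : (0 : ℝ) < s.2 + 1 := by positivity
    refine ⟨pos_of_mul_pos_of_pos (b := s.2 + 1) (by nlinarith) a2.le,
      pos_of_mul_pos_of_pos (b := s.1 + 1) (by nlinarith) a1.le, by linarith⟩
  have sep : ∀ s ∈ sec d x y, ∀ t ∈ sec d x y, s.1 < t.1 → Ψ s + 4 ≤ Ψ t := by
    intro s hs t ht hst
    obtain ⟨a1, a2, a3⟩ := hpos s hs
    obtain ⟨b1, b2, b3⟩ := hpos t ht
    obtain ⟨i, hi⟩ := Nat.exists_eq_add_of_lt hst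
    have hi' : (t.1 : ℝ) = s.1 + i + 1 := by exact_mod_cast hi
    have i0 : (0 : ℝ) ≤ i := by positivity
    have : (t.2 : ℝ) < s.2 := by nlinarith
    obtain ⟨j, hj⟩ := Nat.exists_eq_add_of_lt (by exact_mod_cast this : t.2 < s.2)
    have hj' : (s.2 : ℝ) = t.2 + j + 1 := by exact_mod_cast hj
    have j0 : (0 : ℝ) ≤ j := by positivity
    have k := DD_step (s.1 + 1 - x) (t.2 + 1 - y) i j (by
      rw [hi'] at b3; rw [hj'] at a3; linarith)
    rw [show (s.1 : ℝ) + 1 - x + (i + 1) = t.1 + 1 - x by linarith,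
      show (t.2 : ℝ) + 1 - y + (j + 1) = s.2 + 1 - y by linarith] at k
    simp only [Ψ]
    omega
  set lo : ℤ := ⌊x * d / (x + z)⌋ - (d - 2) with hlo
  set hi : ℤ := d + 4 - ⌈y * d / (y + z)⌉ with hhi
  have rng : ∀ s ∈ sec d x y, lo ≤ Ψ s ∧ Ψ s ≤ hi := by
    intro s hs
    obtain ⟨a1, a2, a3⟩ := hpos s hs
    obtain ⟨h1, h2⟩ := mem_product.1 (mem_filter.1 hs).1
    rw [mem_range] at h1 h2
    have c1 : (s.1 : ℝ) + 1 ≤ d := by exact_mod_cast h1
    have c2 : (s.2 : ℝ) + 2 ≤ d := by exact_mod_cast (by omega : s.2 + 2 ≤ d)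
    have e1 : ⌊x * d / (x + z)⌋ < (s.1 + 1 : ℤ) := by
      rw [Int.floor_lt, div_lt_iff₀ (by positivity)]
      push_cast
      nlinarith
    have e2 : ⌈y * d / (y + z)⌉ ≤ (s.2 + 1 : ℤ) := by
      rw [Int.ceil_le, div_le_iff₀ (by positivity)]
      push_cast
      nlinarith
    have := DD_bd (s.1 + 1 - x) (s.2 + 1 - y)
    simp only [Ψ]
    omega
  have hle : lo ≤ hi + 3 := by
    have d0 : (0 : ℝ) < d := by linarith
    have e1 : ⌊x * d / (x + z)⌋ < (d : ℤ) := by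
      rw [Int.floor_lt, div_lt_iff₀ (by positivity)]
      push_cast
      nlinarith
    have e2 : ⌈y * d / (y + z)⌉ ≤ (d : ℤ) := by
      rw [Int.ceil_le, div_le_iff₀ (by positivity)]
      push_cast
      nlinarith
    omega
  have := card_le_card_of_injOn (s := sec d x y) (t := Finset.Ico 0 ((hi - lo + 4) / 4))
    (fun s => (Ψ s - lo) / 4) (fun s hs => by
      have := rng s hs
      simp only [coe_Ico, Set.mem_Ico]
      omega) (fun s hs t ht h => by
      have h : (Ψ s - lo) / 4 = (Ψ t - lo) / 4 := h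
      rcases lt_trichotomy s.1 t.1 with h1 | h1 | h1
      · have := sep s hs t ht h1; omega
      · obtain ⟨a1, a2, a3⟩ := hpos s hs
        obtain ⟨b1, b2, b3⟩ := hpos t ht
        rw [← h1, ← a3] at b3
        have := mul_left_cancel₀ a1.ne' b3
        exact Prod.ext h1 (by exact_mod_cast (by linarith : (s.2 : ℝ) = t.2))
      · have := sep t ht s hs h1; omega)
  rw [Int.card_Ico] at this
  omega

lemma cnt_eq (d X Y D : ℕ) (x y : ℝ) (hD : 0 < D) (hx : x * D = X) (hy : y * D = Y) :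
    (sec d x y).card = cnt d X Y D := by
  rw [cnt_spec]
  unfold sec
  congr 1
  refine filter_congr fun s _ => ?_
  have hD' : (D : ℝ) ≠ 0 := by positivity
  rw [← mul_left_inj' hD', ← Nat.cast_inj (R := ℝ)]
  push_cast
  rw [← hx, ← hy]
  constructor <;> intro h <;> linarith

lemma small (d : ℕ) (h10 : d < 11) (x y z : ℝ) (hx : 0 < x) (hy : 0 < y) (hz : 0 < z)
    (hd : x + y + z = d) (h2 : 1 < (sec d x y).card) :
    (sec d x y).card + (sec d y z).card + (sec d z x).card ≤ d + 1 := by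
  obtain ⟨s, hs, t, ht, hst⟩ := one_lt_card.1 h2
  wlog h : s.1 ≤ t.1 generalizing s t
  · exact this t ht s hs hst.symm (not_le.1 h).le
  obtain ⟨h1, a⟩ := mem_filter.1 hs
  obtain ⟨h2, b⟩ := mem_filter.1 ht
  simp only [mem_product, mem_range] at h1 h2
  have a1 : (0 : ℝ) ≤ s.1 := by positivity
  have a2 : (0 : ℝ) ≤ s.2 := by positivity
  have a3 : (0 : ℝ) ≤ t.1 := by positivity
  have a4 : (0 : ℝ) ≤ t.2 := by positivity
  have u0 : 0 < s.1 + 1 - x := pos_of_mul_pos_of_pos (b := s.2 + 1) (by nlinarith) (by linarith)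
  have v0 : 0 < t.2 + 1 - y := pos_of_mul_pos_of_pos (b := t.1 + 1) (by nlinarith) (by linarith)
  have h' : s.1 < t.1 := by
    refine lt_of_le_of_ne h fun e => hst (Prod.ext e ?_)
    rw [← e] at b
    have : (s.1 + 1 - x) * (s.2 - t.2) = 0 := by linarith
    exact_mod_cast sub_eq_zero.1 ((mul_eq_zero.1 this).resolve_left u0.ne')
  have c1 : (s.1 : ℝ) < t.1 := by exact_mod_cast h'
  have c2 : (t.2 : ℝ) < s.2 := by nlinarith
  have h'' : t.2 < s.2 := by exact_mod_cast c2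
  have hD : (t.2 + 1) * (s.1 + 1) < (s.2 + 1) * (t.1 + 1) := by nlinarith
  have k := chk_all d h10 t.1 h2.1 s.1 h' s.2 h1.2 t.2 h''
  simp only [ok, ok3, Bool.or_eq_true, Nat.ble_eq] at k
  set D := (s.2 + 1) * (t.1 + 1) - (t.2 + 1) * (s.1 + 1) with hDd
  set X := (s.1 + 1) * (t.1 + 1) * (s.2 + 1 - (t.2 + 1)) with hX
  set Y := (s.2 + 1) * (t.2 + 1) * (t.1 + 1 - (s.1 + 1)) with hY
  have D0 : 0 < D := by omega
  have e1 : x * D = X := by
    rw [hDd, hX]
    push_cast [Nat.cast_sub hD.le, Nat.cast_sub h''.le]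
    linear_combination (t.1 + 1) * a - (s.1 + 1) * b
  have e2 : y * D = Y := by
    rw [hDd, hY]
    push_cast [Nat.cast_sub hD.le, Nat.cast_sub h'.le]
    linear_combination (s.2 + 1) * b - (t.2 + 1) * a
  have D0' : (0 : ℝ) < D := by exact_mod_cast D0
  have e3 : X + Y < d * D := by
    have : (X + Y : ℝ) < d * D := by rw [← e1, ← e2, ← hd]; nlinarith
    exact_mod_cast this
  have e4 : z * D = (d * D - (X + Y) : ℕ) := by
    push_cast [Nat.cast_sub e3.le]
    rw [← e1, ← e2, ← hd]; ring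
  rw [cnt_eq d X Y D x y D0 e1 e2, cnt_eq d Y _ D y z D0 e2 e4, cnt_eq d _ X D z x D0 e4 e1]
  exact k.resolve_left (not_le.2 e3)

lemma total (d : ℕ) (h2 : 2 ≤ d) (x y z : ℝ) (hx : 0 < x) (hy : 0 < y) (hz : 0 < z)
    (hd : x + y + z = d) : (sec d x y).card + (sec d y z).card + (sec d z x).card ≤ d + 1 := by
  by_cases h : d < 11
  · by_cases h1 : 1 < (sec d x y).card
    · exact small d h x y z hx hy hz hd h1
    by_cases h2 : 1 < (sec d y z).card
    · have := small d h y z x hy hz hx (by linarith) h2; omega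
    by_cases h3 : 1 < (sec d z x).card
    · have := small d h z x y hz hx hy (by linarith) h3; omega
    omega
  · have a := sec_bound d x y z hx hy hz hd
    have b := sec_bound d y z x hy hz hx (by linarith)
    have c := sec_bound d z x y hz hx hy (by linarith)
    have key : ∀ u v : ℝ, 0 < u → 0 < v → ⌊u * d / (u + v)⌋ + ⌈v * d / (v + u)⌉ = d := by
      intro u v hu hv
      have : v * d / (v + u) = -(u * d / (u + v)) + (d : ℤ) := by
        push_cast
        field_simp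
        ring
      rw [this, Int.ceil_add_intCast, Int.ceil_neg]
      ring
    have := key x z hx hz
    have := key y x hy hx
    have := key z y hz hy
    omega

lemma on_line {a b c e x y : ℝ} (h : (x, y) ∈ line[ℝ, (a, b), (c, e)]) :
    (x - a) * (e - b) = (y - b) * (c - a) := by
  obtain ⟨r, hr⟩ := mem_affineSpan_pair_iff_exists_lineMap_eq.1 h
  simp only [AffineMap.lineMap_apply, vsub_eq_sub, vadd_eq_add, Prod.ext_iff, Prod.fst_add,
    Prod.smul_fst, Prod.fst_sub, smul_eq_mul, Prod.snd_add, Prod.smul_snd, Prod.snd_sub] at hr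
  rw [← hr.1, ← hr.2]
  ring

lemma cases (d : ℕ) : ∀ u v, IsDiv d u → IsDiv d v → ¬ SameSide d u v →
    ∃ p q, p < d ∧ q < d - 1 ∧ ((u = (p + 1, 0) ∧ v = (0, q + 1) ∨ v = (p + 1, 0) ∧ u = (0, q + 1)) ∨
      (u = (d - (p + 1), p + 1) ∧ v = (d - (q + 1), 0) ∨
        v = (d - (p + 1), p + 1) ∧ u = (d - (q + 1), 0)) ∨
      (u = (0, d - (p + 1)) ∧ v = (q + 1, d - (q + 1)) ∨
        v = (0, d - (p + 1)) ∧ u = (q + 1, d - (q + 1)))) := by
  rintro ⟨a, b⟩ ⟨c, e⟩ h1 h2 h3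
  simp only [IsDiv, SameSide, Prod.ext_iff] at *
  by_cases k1 : b = 0 ∧ c = 0 ∧ e < d
  · exact ⟨a - 1, e - 1, by omega, by omega, .inl (.inl (by omega))⟩
  by_cases k2 : e = 0 ∧ a = 0 ∧ b < d
  · exact ⟨c - 1, b - 1, by omega, by omega, .inl (.inr (by omega))⟩
  by_cases k3 : a + b = d ∧ e = 0 ∧ 0 < c
  · exact ⟨b - 1, d - c - 1, by omega, by omega, .inr (.inl (.inl (by omega)))⟩
  by_cases k4 : c + e = d ∧ b = 0 ∧ 0 < a
  · exact ⟨e - 1, d - a - 1, by omega, by omega, .inr (.inl (.inr (by omega)))⟩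
  by_cases k5 : a = 0 ∧ c + e = d ∧ 0 < e
  · exact ⟨d - b - 1, c - 1, by omega, by omega, .inr (.inr (.inl (by omega)))⟩
  · exact ⟨d - e - 1, a - 1, by omega, by omega, .inr (.inr (.inr (by omega)))⟩

theorem result (d : ℕ) (hd : 2 ≤ d) (x y : ℝ) (hx : 0 < x) (hy : 0 < y) (hxy : x + y < d) :
    {l ∈ lines d | (x, y) ∈ l}.encard ≤ d + 1 := by
  classical
  let L : ℕ × ℕ → ℕ × ℕ → AffineSubspace ℝ (ℝ × ℝ) := fun u v =>
    line[ℝ, ((u.1 : ℝ), (u.2 : ℝ)), ((v.1 : ℝ), (v.2 : ℝ))]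
  have Lc : ∀ u v, L u v = L v u := fun u v => by simp only [L, Set.pair_comm]
  set z := d - x - y with hz
  let A := (sec d x y).image fun s => L (s.1 + 1, 0) (0, s.2 + 1)
  let B := (sec d y z).image fun s => L (d - (s.1 + 1), s.1 + 1) (d - (s.2 + 1), 0)
  let C := (sec d z x).image fun s => L (0, d - (s.1 + 1)) (s.2 + 1, d - (s.2 + 1))
  have hA : ∀ p q, p < d → q < d - 1 → (x, y) ∈ L (p + 1, 0) (0, q + 1) →
      L (p + 1, 0) (0, q + 1) ∈ A ∪ B ∪ C := by
    intro p q hp hq h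
    refine mem_union_left _ (mem_union_left _ (mem_image.2 ⟨(p, q), mem_filter.2
      ⟨by simp [hp, hq], ?_⟩, rfl⟩))
    have := on_line h
    push_cast at this
    linarith
  have hB : ∀ p q, p < d → q < d - 1 → (x, y) ∈ L (d - (p + 1), p + 1) (d - (q + 1), 0) →
      L (d - (p + 1), p + 1) (d - (q + 1), 0) ∈ A ∪ B ∪ C := by
    intro p q hp hq h
    refine mem_union_left _ (mem_union_right _ (mem_image.2 ⟨(p, q), mem_filter.2
      ⟨by simp [hp, hq], ?_⟩, rfl⟩))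
    have := on_line h
    push_cast [Nat.cast_sub (by omega : p + 1 ≤ d), Nat.cast_sub (by omega : q + 1 ≤ d)] at this
    simp only [hz]
    linarith
  have hC : ∀ p q, p < d → q < d - 1 → (x, y) ∈ L (0, d - (p + 1)) (q + 1, d - (q + 1)) →
      L (0, d - (p + 1)) (q + 1, d - (q + 1)) ∈ A ∪ B ∪ C := by
    intro p q hp hq h
    refine mem_union_right _ (mem_image.2 ⟨(p, q), mem_filter.2 ⟨by simp [hp, hq], ?_⟩, rfl⟩)
    have := on_line h
    push_cast [Nat.cast_sub (by omega : p + 1 ≤ d), Nat.cast_sub (by omega : q + 1 ≤ d)] at this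
    simp only [hz]
    linarith
  have sub : {l ∈ lines d | (x, y) ∈ l} ⊆ (A ∪ B ∪ C : Finset _) := by
    rintro _ ⟨⟨u, v, h1, h2, h3, rfl⟩, h⟩
    change (x, y) ∈ L u v at h
    change L u v ∈ A ∪ B ∪ C
    obtain ⟨p, q, hp, hq, k⟩ := cases d u v h1 h2 h3
    rcases k with (⟨rfl, rfl⟩ | ⟨rfl, rfl⟩) | (⟨rfl, rfl⟩ | ⟨rfl, rfl⟩) | (⟨rfl, rfl⟩ | ⟨rfl, rfl⟩)
    · exact hA p q hp hq h
    · rw [Lc] at h ⊢; exact hA p q hp hq h
    · exact hB p q hp hq h
    · rw [Lc] at h ⊢; exact hB p q hp hq h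
    · exact hC p q hp hq h
    · rw [Lc] at h ⊢; exact hC p q hp hq h
  refine (Set.encard_le_encard sub).trans ?_
  rw [Set.encard_coe_eq_coe_finsetCard]
  have h1 := total d hd x y z hx hy (by linarith) (by linarith)
  have h2 : (A ∪ B ∪ C).card ≤ d + 1 :=
    ((card_union_le _ _).trans (Nat.add_le_add ((card_union_le _ _).trans
      (Nat.add_le_add card_image_le card_image_le)) card_image_le)).trans h1
  exact_mod_cast h2

end Pool.Agent.Results.MP_e74ad6_co.Bound
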